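import Pool.Agent.N17.HC.KOS
import Pool.Agent.N17.HC.LSP
import Pool.Agent.N17.HC.ALG
import Pool.Agent.N17.HC.ANA
import Pool.Agent.N17.HC.FAC
import Pool.Agent.N17.HC.CUBE
import Pool.Agent.N17.HC.REC
import Pool.Agent.N17.HC.CHR
import Pool.Agent.N17.HC.DIV
import Pool.Agent.N17.HC.CUB
import Pool.Agent.R852.BC.Main
import Pool.Agent.J4.H53.CI.Fin

/-!
# The degree of smooth subvarieties of arbitrary codimension in large projective spaces

Let `X ⊂ ℙ^N` be a smooth subvariety of codimension `r` and degree `d`, `N ≥ 4 r`. By Barth and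
Larsen the groups `H^(2 i)(X, ℤ)`, `i ≤ r`, are generated by the powers of the hyperplane class `h`,
so the Chern polynomial `P = T^r - c₁ T^(r-1) + c₂ T^(r-2) - ...` of the normal bundle
(`c_i(N_X) = c_i h^i`) has integral coefficients; its complex roots `β_i` are the Chern roots of `N_X`
in units of `h`, and `c_r = β_1 ... β_r = d` (self-intersection formula). `X` is numerically a complete
intersection of hypersurfaces of degrees `a_1, ..., a_r` if and only if `β_i = a_i`; then it has the
degree, the canonical class, the Chern classes and the Hilbert polynomial of a complete intersection.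
The following is known about `P` (see the starting file `CodimensionThreeFour`):

* `N_X(-1)`, a quotient of `T_ℙ(-1)`, is globally generated, so its Chern classes are not negative:
  the coefficients of `P(T + 1)` have the signs `+, -, +, ...`;
* `χ(O_X(t))` is an integer for all `t`; by the theorem of Riemann-Roch it is the Koszul sum
  `Σ_S (-1)^|S| χ(ℙ^N, O(t - Σ_(i ∈ S) β_i))`;
* `χ(N_X^*(t))` is an integer for all `t`; it is `Σ_i χ(O_X(t - β_i))`.

We show, for ALL codimensions `r`, all `A`, all `ε > 0` and all `N ≥ N₀(r, A, ε)`: let `d ≤ N ^ A`, and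
let `m_1, m_2, ...` be the degrees of the irreducible factors of `P`. Then

  `d ≥ N ^ (κ(m_1) + κ(m_2) + ... - ε)`,

where `κ(1) = 0`, `κ(2) = 2 √e = 3.29...`, `κ(3) = √e = 1.64...` and `κ(m) = m / 2` for `m ≥ 4`. In
particular, if `d ≤ N ^ (√e - ε)`, then all `β_i` are positive integers: `X` is numerically a complete
intersection.

The starting files prove a result of this kind only for `r = 2`, `3`, `4` (for `r = 4` with the exponent
`1.09...` instead of `√e`); nothing was known for `r ≥ 5` except for `d` smaller than about `N / (2 r)`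
(Bertram, Ein and Lazarsfeld).

The proof. By the two integrality conditions `P` splits into linear factors modulo all primes
`r < p ≤ N - 2 r + 1` which do not divide `d`; here `p` can be as large as `N`, whereas the
discriminant of `P` is only bounded by a power of `d`, so that the theorem of Chebotarev cannot be used.
Instead we use a pigeonhole argument: let `Q` be an irreducible factor of degree `m ≥ 2` with the
roots `β_i`; there are `y²` pairs `(a, b)` of integers with `|a| ≤ X`, `1 ≤ b ≤ Y`, and if `Q`
splits modulo `p`, then `a + b θ` takes many pairs of values which are congruent modulo a prime ideal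
above `p`. The product of the forms `b^m Q(a / b)` (norms of `a - b β`) is divisible by a high power of
`p`: on average each of the good primes `p ≤ y` contributes `m log p / p`, so that by the theorem of
Mertens the mean of `log |b^m Q(a / b)|` is at least `m log y - ε log N`, while the size of the form is
`∏ (X + Y |β_i|)`. So `∏ (N / Y + Y |β_i|) ≥ N ^ (m - ε)` for `1 ≤ Y ≤ N`, and for `Y = N ^ (1/2)` this
gives the bound `m / 2`. The bounds for `m = 2` and `m = 3` follow from the theorems of Burgess and of
Polya and Vinogradov for the characters of quadratic and cubic fields (from the starting files). The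
product of the numbers `max (1, |β_i - 1|)` is at most `d`.
-/

set_option autoImplicit false

namespace Pool.Agent.Results.MP_014caa_ag.AllCodimensions

open Polynomial

/-- The Chern roots: the complex roots of `P` with multiplicities. -/
noncomputable def chernRoots (P : ℤ[X]) : Multiset ℂ := (P.map (Int.castRingHom ℂ)).roots

/-- `χ(ℙ^N, O(x)) = (x + 1) ... (x + N) / N!`. -/
noncomputable def chiPN (N : ℕ) (x : ℂ) : ℂ :=
  (∏ j ∈ Finset.range N, (x + j + 1)) / N.factorial

/-- `χ(O_X(x)) = Σ_S (-1)^|S| χ(ℙ^N, O(x - β_S))`, `S` running over the submultisets of the multiset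
of the Chern roots of the normal bundle, `β_S` the sum of the elements of `S`. -/
noncomputable def chiX (N : ℕ) (P : ℤ[X]) (x : ℂ) : ℂ :=
  ((chernRoots P).powerset.map fun S => (-1) ^ Multiset.card S * chiPN N (x - S.sum)).sum

/-- `χ(N_X^*(x)) = Σ_i χ(O_X(x - β_i))`. -/
noncomputable def chiConormal (N : ℕ) (P : ℤ[X]) (x : ℂ) : ℂ :=
  ((chernRoots P).map fun b => chiX N P (x - b)).sum

/-- The exponent `κ(m)` which an irreducible factor of degree `m` of the Chern polynomial contributes
to the degree of the variety: `0`, `2 √e`, `√e` for `m = 1`, `2`, `3`, and `m / 2` for `m ≥ 4`. -/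
noncomputable def kappa (m : ℕ) : ℝ :=
  if m ≤ 1 then 0 else if m = 2 then 2 * Real.exp (1 / 2) else
    if m = 3 then Real.exp (1 / 2) else (m : ℝ) / 2

open Pool.Agent.N17.HC in
theorem bin_eq (N : ℕ) (x : ℂ) : bin N (N + x) = chiPN N x := by
  unfold bin chiPN
  congr 1
  rw [← Finset.prod_range_reflect]
  refine Finset.prod_congr rfl fun j hj => ?_
  have hj' := Finset.mem_range.1 hj
  rw [show N - 1 - j = N - (j + 1) by omega, Nat.cast_sub (by omega)]
  push_cast
  ring

open Pool.Agent.N17.HC in
theorem kos_eq (N : ℕ) (P : ℤ[X]) (x : ℂ) : kos N (rootsOf P) (N + x) = chiX N P x := by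
  unfold kos chiX
  change Multiset.sum (Multiset.map _ (Multiset.powerset (chernRoots P))) = _
  congr 1
  refine Multiset.map_congr rfl fun S _ => ?_
  rw [add_sub_assoc, bin_eq]

/-- **The degree of smooth subvarieties of arbitrary codimension `r` of large projective spaces.** -/
theorem result (r : ℕ) (A ε : ℝ) (hε : 0 < ε) : ∃ N₀ : ℕ, ∀ N : ℕ, N₀ ≤ N →
    ∀ P : ℤ[X], P.Monic → P.natDegree = r →
    -- the Chern classes of `N_X(-1)` are not negative
    (∀ i, 0 ≤ (-1) ^ (r - i) * (P.comp (X + 1)).coeff i) →
    -- the Euler characteristics of `O_X(t)` and of `N_X^*(t)` are integers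
    (∀ t : ℤ, ∃ z : ℤ, chiX N P t = z) →
    (∀ t : ℤ, ∃ z : ℤ, chiConormal N P t = z) →
    -- the degree `d = |P(0)|`
    (|P.coeff 0| : ℝ) ≤ (N : ℝ) ^ A →
    -- the degree and the factorization of the Chern polynomial
    (∀ s : Multiset ℤ[X], (∀ Q ∈ s, Q.Monic ∧ Irreducible Q) → s.prod = P →
      (N : ℝ) ^ ((s.map fun Q => kappa Q.natDegree).sum - ε) ≤ (|P.coeff 0| : ℝ)) ∧
    -- in particular: if the degree is small, then `P` is the polynomial of a complete intersection
    ((|P.coeff 0| : ℝ) ≤ (N : ℝ) ^ (Real.exp (1 / 2) - ε) →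
      ∃ a : Fin r → ℤ, (∀ i, 1 ≤ a i) ∧ P = ∏ i, (X - C (a i))) := by
  have hM2 : Pool.Agent.N17.HC.S_M2 := Pool.Agent.R852.BC.main2
  have hCUB := Pool.Agent.N17.HC.t_CUB Pool.Agent.N17.HC.t_ALG hM2 Pool.Agent.N17.HC.t_FAC
    Pool.Agent.N17.HC.t_CUBE Pool.Agent.N17.HC.t_REC Pool.Agent.N17.HC.t_CHR
    Pool.Agent.N17.HC.t_DIV Pool.Agent.N17.HC.t_ANA
  obtain ⟨N₀, h⟩ := Filter.eventually_atTop.1 (Pool.Agent.J4.H53.CI.main_all
    Pool.Agent.N17.HC.t_KOS Pool.Agent.N17.HC.t_LSP hCUB hM2 r A ε hε)
  refine ⟨N₀, fun N hN P hP hd hpos h1 h2 hle => ?_⟩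
  have h3 := h N hN P hP hd hpos ?_ ?_ (by exact_mod_cast hle)
  · refine ⟨fun s hs hsP => ?_, fun hsmall => ?_⟩
    · exact_mod_cast h3.2.1 s hs hsP
    · exact h3.2.2 (Or.inl (by exact_mod_cast hsmall))
  · intro t
    obtain ⟨z, hz⟩ := h1 t
    exact ⟨z, by rw [kos_eq]; exact hz⟩
  · intro t
    obtain ⟨z, hz⟩ := h2 t
    refine ⟨z, ?_⟩
    rw [← hz]
    unfold chiConormal
    change Multiset.sum (Multiset.map _ (chernRoots P)) = _
    congr 1
    refine Multiset.map_congr rfl fun b _ => ?_
    rw [add_sub_assoc, kos_eq]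

end Pool.Agent.Results.MP_014caa_ag.AllCodimensions
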