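import Mathlib
import Pool.Agent.J4.H17.CI.G2

/-!
# Cubic manifolds of small codimension are complete intersections

Let `X ⊂ ℙ^N` be a nonsingular irreducible closed subvariety of codimension `r`, with
`8 r ≤ N + 1`.  Then the equations of `X` of degree at most three are those of a complete intersection
which is smooth along `X`: there are `s ≤ r` forms `F_1, ..., F_s` of degrees at most three in the ideal
`I` of `X`, with linearly independent differentials at every point of `X`, which generate all elements
of degree at most three of `I`.  If there is one point of `X` at which the conormal space of `X` is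
spanned by the differentials of elements of degree at most three of `I` (for instance, if `X` is cut
out by cubic and quadratic hypersurfaces, or if `X` is a generically reduced component of the
intersection of `r` cubic hypersurfaces), then `s = r` and `I = (F_1, ..., F_r)`: so `X` is a complete
intersection.

The proof.  (1) Let `g` be a form of degree two or three in `I` whose gradient is zero at some point of
`X`.  Let `Y` be a component of the set of all such points; it is defined by at most `2 r` equations
near its general points.  At a general point `z` of `Y` the form `g` vanishes on the tangent space of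
`Y`: for cubic forms this follows from the derivatives of the minors of the Hesse matrix of `g`.  So `g`
is in the ideal generated by at most `2 r` linear forms.  (2) The elements of degree `≤ 3` of `I` which
are in the ideal generated by at most `2 r` linear forms are in `(X_0, ..., X_N) I`.  This is proved by
induction, with general hyperplane sections and then with sections by general hyperplanes in the linear
system; the theorem of Bertini, the theorem on tangencies (which bounds the dimension of the set of
the points where the linear system is not transversal), and the linear normality of smooth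
varieties of small codimension (Zak), all proved in the imported files, are used.  (3) Hence the
minimal generators of `I` of degree at most three have independent gradients at all points of `X`.  If
there are `r` of them, they generate `I`.
-/

set_option autoImplicit false

namespace Pool.Agent.Results.MP_014caa_ag.CubicManifolds

open MvPolynomial

/-- The polynomial ring `ℂ[x_0, …, x_N]`. -/
abbrev Poly (N : ℕ) : Type := MvPolynomial (Fin (N + 1)) ℂ

/-- The gradient of the polynomial `F` at the point `x`. -/
noncomputable def grad {N : ℕ} (F : Poly N) (x : Fin (N + 1) → ℂ) : Fin (N + 1) → ℂ :=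
  fun i => eval x (pderiv i F)

/-- The common zeros in `ℂ^(N + 1)` of the polynomials in `I`: the affine cone over the projective
variety `X` when `I` is the homogeneous ideal of `X`. -/
def cone {N : ℕ} (I : Ideal (Poly N)) : Set (Fin (N + 1) → ℂ) := {x | ∀ F ∈ I, eval x F = 0}

/-- The conormal space of `X` at `x`: the span of the gradients at `x` of the elements of `I`. -/
noncomputable def conormal {N : ℕ} (I : Ideal (Poly N)) (x : Fin (N + 1) → ℂ) :
    Submodule ℂ (Fin (N + 1) → ℂ) :=
  Submodule.span ℂ {ξ | ∃ F ∈ I, ξ = grad F x}

/-- `I` is the homogeneous ideal of a nonempty nonsingular irreducible closed subvariety `X` of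
codimension `r` of the complex projective space `ℙ^N`: it is a homogeneous prime ideal with a zero
other than the origin, and at every point of `X` the gradients of the elements of `I` span a space of
dimension `r` (Jacobian criterion). -/
structure IsSmoothVariety (N r : ℕ) (I : Ideal (Poly N)) : Prop where
  prime : I.IsPrime
  homogeneous : ∀ F ∈ I, ∀ d, homogeneousComponent d F ∈ I
  nonempty : ∃ x ∈ cone I, x ≠ 0
  smooth : ∀ x ∈ cone I, x ≠ 0 → Module.finrank ℂ (conormal I x) = r

/-- At the point `x` of `X` the conormal space of `X` is spanned by the gradients of elements of the
ideal of degree at most three. -/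
def IsCubicAt {N : ℕ} (I : Ideal (Poly N)) (x : Fin (N + 1) → ℂ) : Prop :=
  conormal I x ≤ Submodule.span ℂ {ξ | ∃ F ∈ I, F.totalDegree ≤ 3 ∧ ξ = grad F x}

/-- **The equations of degree at most three of a smooth variety of codimension `r ≤ (N + 1) / 8`.**
They are generated by `s ≤ r` forms which have independent differentials at every point of `X`; if they
span the conormal space of `X` at one point, then `X` is their complete intersection. -/
theorem result (N r : ℕ) (hN : 8 * r ≤ N + 1) (I : Ideal (Poly N)) (hI : IsSmoothVariety N r I) :
    ∃ (s : ℕ) (F : Fin s → Poly N) (d : Fin s → ℕ), s ≤ r ∧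
      (∀ i, F i ∈ I ∧ 1 ≤ d i ∧ d i ≤ 3 ∧ (F i).IsHomogeneous (d i)) ∧
      (∀ G ∈ I, G.totalDegree ≤ 3 → G ∈ Ideal.span (Set.range F)) ∧
      (∀ x ∈ cone I, x ≠ 0 → LinearIndependent ℂ (fun i => grad (F i) x)) ∧
      ((∃ x ∈ cone I, x ≠ 0 ∧ IsCubicAt I x) → s = r ∧ I = Ideal.span (Set.range F)) := by
  have hS : Pool.Agent.H929R2.Hart.SCone I r := ⟨hI.prime, hI.homogeneous, hI.smooth⟩
  obtain ⟨s, F, d, h1, h2, h3, h4, h5⟩ := Pool.Agent.J4.H17.CI.cubic_structure hS
    (Pool.Agent.J4.H17.CI.singProp_of_card hS (by rw [Fintype.card_fin]; exact hN))
    hI.nonempty (by omega)
  exact ⟨s, F, d, h1, h2, h3, h4, fun ⟨x, hx, hx0, hc⟩ => h5 x hx hx0 hc⟩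

end Pool.Agent.Results.MP_014caa_ag.CubicManifolds
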