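import Pool.Agent.J4.H53.CI.CutD

/-!
# Smooth subvarieties cut out by hypersurfaces of degree less than `N` are numerically complete intersections

Let `X ⊂ ℙ^N` be a smooth subvariety of codimension `r`, cut out scheme-theoretically by
hypersurfaces of degree at most `D`. There is no condition on the number of the hypersurfaces, or on
the degree of `X`. We show: if

  `D ≤ N - 10^6 · 5^r`,

then `X` is numerically a complete intersection of hypersurfaces of degrees `a_1, ..., a_r`, where
`1 ≤ a_i ≤ D`: it has the degree, the canonical class, the Chern classes and the Hilbert polynomial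
of this complete intersection.

By Barth and Larsen the Chern classes of the normal bundle are integral multiples
`c_j(N_X) = c_j h^j` of the powers of the hyperplane class; let `β_1, ..., β_r` be the Chern roots, the
complex roots of `P = T^r - c₁ T^(r-1) + c₂ T^(r-2) - ...`. Then `c_r = deg X` (self-intersection
formula), and `X` is numerically a complete intersection if and only if the `β_i` are integers. The
following is known:

* the normal bundle, a quotient of `T_ℙ`, is ample. So its Schur polynomials
  `s_λ = det (c_(λ_i + j - i))`, `r ≥ λ_1 ≥ ... ≥ λ_l ≥ 0`, are positive if `|λ| ≤ dim X`, by the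
  theorem of Fulton and Lazarsfeld (applied to the restriction of `N_X` to linear sections of `X` of
  dimension `|λ|`);
* `χ(O_X(t))` is an integer for all `t`; by the theorem of Riemann-Roch it is the Koszul sum
  `Σ_S (-1)^|S| χ(ℙ^N, O(t - β_S))`, where `β_S = Σ_(i ∈ S) β_i`;
* since the ideal sheaf of `X`, twisted by `D`, is globally generated, so is `N_X^*(D)`. Its Chern
  classes are not negative: the coefficients of `P(T + D) = ∏ (T + D - β_i)` are not negative.

In codimension two, every smooth `X` which is contained in one hypersurface of degree at most `N - 2`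
is a complete intersection (Ran). For `r ≥ 3` it is known that `X` is a complete intersection if its
degree is at most about `N / (2 r)` (Bertram, Ein and Lazarsfeld), and if `D = 2`, `3` and `r` is small
(Ionescu and Russo; the hand-in `CubicManifolds`).

The proof. (1) By a theorem of Schoenberg the positivity of the Schur polynomials implies that the
Chern roots are in the sector `|arg β| ≤ 2 π r² / N`. (2) The last condition implies that the
differences `β - D` are not in the sector `|arg| < π / r`; so the real parts of the Chern roots are
at most `D + 7 r³`, and the imaginary parts at most `13 r²`. (3) By Riemann-Roch, the sum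
`Σ_S (-1)^|S| f(β_S)` is an integer for all integer valued polynomials `f` of degree at most `N`.
(4) Suppose that not all Chern roots are integers, and let `s` be a non-integral Chern root with the
smallest real part, `Q` its minimal polynomial. Let `G` be the part prime to `Q` of
`∏_S (T - β_S)`; it has integral coefficients and the degree at most `2^r`. For `f = C(T + a, K) T^b G`,
`b ≤ r`, `K = N - r - 2^r`, only the sums `β_S` count which are conjugate to `s`, so that they are Chern
roots, between `0` and `D + 7 r³`. There `C(T + a, K)` is very small. So the integers are zero, and by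
interpolation `Σ_(β_S = s) (-1)^|S| = 0`. (5) But `β_S = s` is only possible if `S` has one element: the
real parts are positive, and a sum of integral Chern roots is an integer. This is a contradiction.
-/

set_option autoImplicit false

namespace Pool.Agent.Results.MP_014caa_ag.EquationsOfSmallDegree

open Polynomial

/-- `χ(ℙ^N, O(x)) = (x + 1) ... (x + N) / N!`. -/
noncomputable def chiPN (N : ℕ) (x : ℂ) : ℂ :=
  (∏ j ∈ Finset.range N, (x + j + 1)) / N.factorial

/-- `χ(O_X(x)) = Σ_S (-1)^|S| χ(ℙ^N, O(x - β_S))`, `S` running over the subsets of the set of indices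
of the Chern roots `β_j` of the normal bundle, `β_S = Σ_(j ∈ S) β_j`. -/
noncomputable def chiX (N : ℕ) {r : ℕ} (β : Fin r → ℂ) (x : ℂ) : ℂ :=
  ∑ S : Finset (Fin r), (-1) ^ S.card * chiPN N (x - ∑ j ∈ S, β j)

/-- The Chern class `c_j` (a multiple of the power `h^j` of the hyperplane class), if
`P = T^r - c₁ T^(r-1) + c₂ T^(r-2) - ...`; `c_j = 0` for `j > r`. -/
def chern (r : ℕ) (P : ℤ[X]) (j : ℕ) : ℤ := if j ≤ r then (-1) ^ j * P.coeff (r - j) else 0

/-- The Schur polynomial `det (c_(λ_i + i - j))` of the Chern classes, for a partition
`λ_0 ≤ λ_1 ≤ ... ≤ λ_(l-1)`; here `c_m = 0` for negative `m`. -/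
def schur (r : ℕ) (P : ℤ[X]) {l : ℕ} (lam : Fin l → ℕ) : ℤ :=
  Matrix.det (fun i j : Fin l => if (j : ℕ) ≤ lam i + i then chern r P (lam i + i - j) else 0)

/-- **Smooth subvarieties of codimension `r` of `ℙ^N` which are cut out by hypersurfaces of degree at
most `N - 10^6 · 5^r` are numerically complete intersections.** -/
theorem result (N r D : ℕ) (hN : D + 10 ^ 6 * 5 ^ r ≤ N)
    -- the Chern polynomial of the normal bundle and the Chern roots
    (P : ℤ[X]) (β : Fin r → ℂ) (hβ : P.map (Int.castRingHom ℂ) = ∏ j, (X - C (β j)))
    -- the normal bundle is ample: the Schur polynomials of degree at most `dim X` are positive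
    (hample : ∀ (l : ℕ) (lam : Fin l → ℕ), Monotone lam → (∀ i, lam i ≤ r) →
      ∑ i, lam i + r ≤ N → 0 < schur r P lam)
    -- the Euler characteristics of `O_X(t)` are integers
    (hχ : ∀ t : ℤ, ∃ z : ℤ, chiX N β t = z)
    -- `X` is cut out by hypersurfaces of degree at most `D`: `N_X^*(D)` is globally generated
    (hD : ∀ i, 0 ≤ (P.comp (X + C (D : ℤ))).coeff i) :
    -- `X` is numerically a complete intersection of hypersurfaces of degrees `a_j ≤ D`
    ∃ a : Fin r → ℤ, (∀ j, 1 ≤ a j ∧ a j ≤ D) ∧ P = ∏ j, (X - C (a j)) :=
  Pool.Agent.J4.H53.CI.Cut.cutout r N D hN P β hβ hample hχ hD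

end Pool.Agent.Results.MP_014caa_ag.EquationsOfSmallDegree
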