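import Pool.Agent.N17.HC.KOS
import Pool.Agent.N17.HC.LSP
import Pool.Agent.N17.HC.ALG
import Pool.Agent.N17.HC.ANA
import Pool.Agent.N17.HC.FAC
import Pool.Agent.N17.HC.CUBE
import Pool.Agent.N17.HC.REC
import Pool.Agent.N17.HC.CHR
import Pool.Agent.N17.HC.DIV
import Pool.Agent.N17.HC.CUB
import Pool.Agent.R852.BC.Main
import Pool.Agent.J4.H53.CI.CanJ

/-!
# Fano and Calabi-Yau subvarieties, and subvarieties with a small canonical class

Let `X ⊂ ℙ^N` be a smooth subvariety of codimension `r` with `ω_X = O_X(k)`. (If `N ≥ 2 r + 2`, then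
`ω_X` is of this form, by Barth and Larsen.) We show that there is a constant `M = M(r)` for all `r`
such that: if `N ≥ M` and

  `k ≤ N - M`,

then `X` is numerically a complete intersection: it has the degree, the Chern classes and the Hilbert
polynomial of a complete intersection. In particular this is true for all Fano varieties (`k < 0`), of
any index, and for all Calabi-Yau varieties (`k = 0`) of codimension `r`, if `N ≥ M(r)`; and for all
`X` with `k ≤ dim X - M'(r)`.

By Barth and Larsen the Chern classes of the normal bundle are integral multiples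
`c_j(N_X) = c_j h^j` of the powers of the hyperplane class; let `β_1, ..., β_r` be the Chern roots, the
complex roots of `P = T^r - c₁ T^(r-1) + c₂ T^(r-2) - ...`. Then `c_r = deg X` (self-intersection
formula), `c₁ = k + N + 1` (adjunction formula), and `X` is numerically a complete intersection if and
only if the `β_i` are integers. The following is known:

* `N_X(-1)`, a quotient of `T_ℙ(-1)`, is globally generated, so its Chern classes are not negative:
  the coefficients of `P(T + 1)` have the signs `+, -, +, ...`;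
* `N_X` is ample. So its Schur polynomials `s_λ = det (c_(λ_i + j - i))`, `r ≥ λ_1 ≥ ... ≥ λ_l ≥ 0`, are
  positive if `|λ| ≤ dim X` (Fulton and Lazarsfeld);
* `χ(O_X(t))` is an integer for all `t`; by the theorem of Riemann-Roch it is the Koszul sum
  `Σ_S (-1)^|S| χ(ℙ^N, O(t - β_S))`, where `β_S = Σ_(i ∈ S) β_i`;
* `χ(N_X^*(t))` is an integer for all `t`; it is `Σ_i χ(O_X(t - β_i))`.

The proof. (1) By the theorem of Schoenberg the Chern roots are in the sector `|arg β| ≤ 2 π r² / N`;
so their real parts are positive, and their imaginary parts are bounded. (2) Suppose that not all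
Chern roots are integers; let `s` be a non-integral Chern root with the smallest real part, `Q` its
minimal polynomial. As in the hand-in `EquationsOfSmallDegree`, one of the conjugates of `s` has a real
part larger than `N - O(1)`; since `c₁ = k + N + 1 ≤ 2 N - M + 1`, all the other Chern roots are smaller.
(3) `Q` splits modulo all good primes `p ≤ N - 2 r` (by the integrality of `χ(O_X(t))` and
`χ(N_X^*(t))`). If `Q` is quadratic, then its discriminant, at most `O(N²)`, is not a square: this is a
contradiction to Burgess' bound and the trick of Vinogradov. If `Q` is cubic, then its discriminant, at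
most `O(N⁶)`, is a square for the same reason (`6 < 4 √e`), and one gets a contradiction from the cubic
reciprocity law (this is the theorem `t_CUB` of the starting files `Pool.Agent.N17.HC`).
(4) Let the degree `m` of `Q` be at least four. For integral valued polynomials `φ` of degree at most
`N - 2 r - 2^r` the numbers `φ(ω) G(ω) Σ_(β_S = ω) (-1)^|S|`, `Q(ω) = 0`, `G` the part prime to `Q` of
`∏ (T - β_S)`, are the conjugates of an element of the dual of `ℤ[T]/(Q)`; so the product of the
`|φ(ω)|` is larger than a power of `1 / N`. But for a suitable `φ = C(T + a, K)` the values at the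
`m - 1 ≥ 3` small roots are at most `N^O(1) / C(K, a)`, the value at the large root is at most
`C(K + b, b)` with `b ≤ 3 a - M / 2`, and `C(K + b, b) N^E ≤ C(K, a)³` for any given exponent `E`, if `M`
is large; this follows from the inequality `C(K + c, c) (3 K)^c ≤ (3 a + 1)² C(K, a)³ (K + c)^c` for
`c = 3 a`. This is a contradiction.
-/

set_option autoImplicit false

namespace Pool.Agent.Results.MP_014caa_ag.SmallCanonicalClass

open Polynomial

/-- `χ(ℙ^N, O(x)) = (x + 1) ... (x + N) / N!`. -/
noncomputable def chiPN (N : ℕ) (x : ℂ) : ℂ :=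
  (∏ j ∈ Finset.range N, (x + j + 1)) / N.factorial

/-- `χ(O_X(x)) = Σ_S (-1)^|S| χ(ℙ^N, O(x - β_S))`, `S` running over the subsets of the set of indices
of the Chern roots `β_j` of the normal bundle, `β_S = Σ_(j ∈ S) β_j`. -/
noncomputable def chiX (N : ℕ) {r : ℕ} (β : Fin r → ℂ) (x : ℂ) : ℂ :=
  ∑ S : Finset (Fin r), (-1) ^ S.card * chiPN N (x - ∑ j ∈ S, β j)

/-- `χ(N_X^*(x)) = Σ_i χ(O_X(x - β_i))`. -/
noncomputable def chiConormal (N : ℕ) {r : ℕ} (β : Fin r → ℂ) (x : ℂ) : ℂ :=
  ∑ i, chiX N β (x - β i)

/-- The Chern class `c_j` (a multiple of the power `h^j` of the hyperplane class), if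
`P = T^r - c₁ T^(r-1) + c₂ T^(r-2) - ...`; `c_j = 0` for `j > r`. -/
def chern (r : ℕ) (P : ℤ[X]) (j : ℕ) : ℤ := if j ≤ r then (-1) ^ j * P.coeff (r - j) else 0

/-- The Schur polynomial `det (c_(λ_i + i - j))` of the Chern classes, for a partition
`λ_0 ≤ λ_1 ≤ ... ≤ λ_(l-1)`; here `c_m = 0` for negative `m`. -/
def schur (r : ℕ) (P : ℤ[X]) {l : ℕ} (lam : Fin l → ℕ) : ℤ :=
  Matrix.det (fun i j : Fin l => if (j : ℕ) ≤ lam i + i then chern r P (lam i + i - j) else 0)

/-- **Smooth subvarieties of codimension `r` of `ℙ^N`, `N ≥ M(r)`, with `ω_X = O_X(k)`,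
`k ≤ N - M(r)`, are numerically complete intersections.** -/
theorem result (r : ℕ) : ∃ M : ℕ, ∀ N : ℕ, M ≤ N →
    -- the Chern polynomial of the normal bundle and the Chern roots
    ∀ (P : ℤ[X]) (β : Fin r → ℂ), P.map (Int.castRingHom ℂ) = ∏ j, (X - C (β j)) →
    -- the normal bundle is ample: the Schur polynomials of degree at most `dim X` are positive
    (∀ (l : ℕ) (lam : Fin l → ℕ), Monotone lam → (∀ i, lam i ≤ r) →
      ∑ i, lam i + r ≤ N → 0 < schur r P lam) →
    -- the Chern classes of the normal bundle, twisted by `-1`, are not negative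
    (∀ i, 0 ≤ (-1) ^ (r - i) * (P.comp (X + 1)).coeff i) →
    -- the Euler characteristics of `O_X(t)` and of `N_X^*(t)` are integers
    (∀ t : ℤ, ∃ z : ℤ, chiX N β t = z) →
    (∀ t : ℤ, ∃ z : ℤ, chiConormal N β t = z) →
    -- the canonical class: `ω_X = O_X(k)`, `k = c₁ - N - 1`
    ∀ k : ℤ, (k : ℂ) = ∑ j, β j - N - 1 → k + M ≤ N →
    -- `X` is numerically a complete intersection
    ∃ a : Fin r → ℤ, (∀ j, 1 ≤ a j) ∧ P = ∏ j, (X - C (a j)) := by
  have hM2 : Pool.Agent.N17.HC.S_M2 := Pool.Agent.R852.BC.main2
  have hCUB := Pool.Agent.N17.HC.t_CUB Pool.Agent.N17.HC.t_ALG hM2 Pool.Agent.N17.HC.t_FAC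
    Pool.Agent.N17.HC.t_CUBE Pool.Agent.N17.HC.t_REC Pool.Agent.N17.HC.t_CHR
    Pool.Agent.N17.HC.t_DIV Pool.Agent.N17.HC.t_ANA
  exact Pool.Agent.J4.H53.CI.Can.canonical7 Pool.Agent.N17.HC.t_KOS Pool.Agent.N17.HC.t_LSP hCUB
    hM2 r

end Pool.Agent.Results.MP_014caa_ag.SmallCanonicalClass
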